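import Mathlib

namespace Pool.Agent.Results.MP_ca4252_co.All

/-- Start position of the image of the letter `f i` under `0 ↦ 01, 1 ↦ 0` (`0 = false`). -/
def pos (f : ℕ → Bool) : ℕ → ℕ
  | 0 => 0
  | i + 1 => pos f i + if f i = false then 2 else 1

/-- `f` is a fixed point of the substitution `0 ↦ 01`, `1 ↦ 0`. -/
def IsFix (f : ℕ → Bool) : Prop :=
  ∀ i, f (pos f i) = false ∧ (f i = false → f (pos f i + 1) = true)

lemma cover (f : ℕ → Bool) (j : ℕ) :
    ∃ i, i ≤ pos f i ∧ (j = pos f i ∨ (j = pos f i + 1 ∧ f i = false)) := by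
  induction j with
  | zero => exact ⟨0, le_rfl, Or.inl rfl⟩
  | succ j ih =>
    obtain ⟨i, h0, h | ⟨h, h'⟩⟩ := ih
    · by_cases hf : f i = false
      · exact ⟨i, h0, Or.inr ⟨by omega, hf⟩⟩
      · exact ⟨i + 1, by simp only [pos, if_neg hf]; omega, Or.inl (by simp only [pos, if_neg hf]; omega)⟩
    · exact ⟨i + 1, by simp only [pos, if_pos h']; omega, Or.inl (by simp only [pos, if_pos h']; omega)⟩

lemma mech (t : ℝ) (ht : t ^ 2 = t + 1) (h1 : 1.618 < t) (h2 : t < 1.6181)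
    (hi : ∀ a b : ℤ, b ≠ 0 → (b : ℝ) * t ≠ a) (f : ℕ → Bool) (hf : IsFix f) (j : ℕ) :
    (f j = false ↔ 2 - t ≤ Int.fract (((j : ℝ) + 1) * t)) ∧
      ⌊((j : ℝ) + 1) * t⌋ = (pos f j : ℤ) + 1 := by
  induction j using Nat.strong_induction_on with
  | _ j ih =>
    have P : ⌊((j : ℝ) + 1) * t⌋ = (pos f j : ℤ) + 1 := by
      rcases j with _ | j
      · rw [Int.floor_eq_iff]; simp only [pos]; push_cast; constructor <;> linarith
      · obtain ⟨c, p⟩ := ih j (by omega)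
        have e := Int.floor_add_fract (((j : ℝ) + 1) * t)
        have e0 := Int.fract_nonneg (((j : ℝ) + 1) * t)
        have e1 := Int.fract_lt_one (((j : ℝ) + 1) * t)
        rw [p] at e
        rw [Int.floor_eq_iff]
        by_cases hj : f j = false
        · have := c.1 hj
          simp only [pos, if_pos hj]; push_cast at e ⊢; constructor <;> linarith
        · have := not_le.1 (fun h => hj (c.2 h))
          simp only [pos, if_neg hj]; push_cast at e ⊢; constructor <;> linarith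
    refine ⟨?_, P⟩
    obtain ⟨i, h0, hj⟩ := cover f j
    have p : ⌊((i : ℝ) + 1) * t⌋ = (pos f i : ℤ) + 1 := by
      by_cases h : i = j
      · rw [h]; exact P
      · exact (ih i (by omega)).2
    have e := Int.floor_add_fract (((i : ℝ) + 1) * t)
    have e0 := Int.fract_nonneg (((i : ℝ) + 1) * t)
    have e1 := Int.fract_lt_one (((i : ℝ) + 1) * t)
    rw [p] at e
    push_cast at e
    have n1 := hi ((pos f i : ℤ) + 1) (i + 1) (by omega)
    have n2 := hi ((pos f i : ℤ) + 3) (i + 2) (by omega)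
    push_cast at n1 n2
    have c := fun h : i < j => (ih i h).1
    generalize Int.fract (((i : ℝ) + 1) * t) = x at *
    have hx : 0 < x := lt_of_le_of_ne e0 (fun h => n1 (by linarith))
    rcases hj with hj | ⟨hj, hj'⟩
    · have : Int.fract (((j : ℝ) + 1) * t) = 1 - x * (t - 1) := by
        rw [Int.fract_eq_iff]
        refine ⟨by nlinarith, by nlinarith, (pos f i : ℤ) + i + 1, ?_⟩
        rw [hj]; push_cast
        linear_combination (t - 1) * e + ((i : ℝ) + 1) * ht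
      rw [this]
      refine ⟨fun _ => by nlinarith, fun _ => by rw [hj]; exact (hf i).1⟩
    · have hx2 : 2 - t < x := lt_of_le_of_ne ((c (by omega)).1 hj') (fun h => n2 (by linarith))
      have : Int.fract (((j : ℝ) + 1) * t) = (t - 1) * (1 - x) := by
        rw [Int.fract_eq_iff]
        refine ⟨by nlinarith, by nlinarith, (pos f i : ℤ) + i + 3, ?_⟩
        rw [hj]; push_cast
        linear_combination (t - 1) * e + ((i : ℝ) + 1) * ht
      rw [this]
      have h3 : f j = true := by rw [hj]; exact (hf i).2 hj'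
      refine ⟨fun h => by simp [h3] at h, fun h => by nlinarith⟩

lemma nj (u : ℕ → ℝ) (lo hi δ : ℝ) (K : ℕ) (hb : ∀ j ≤ K, lo ≤ u j ∧ u j < hi)
    (hz : ∀ j, ∃ z : ℤ, u (j + 1) - u j - δ = z) (h : hi - lo + δ ≤ 1) (h' : hi - lo - δ ≤ 1) :
    u K = u 0 + K * δ := by
  induction K with
  | zero => simp
  | succ K ih =>
    obtain ⟨z, e⟩ := hz K
    have a := hb K (by omega)
    have b := hb (K + 1) le_rfl
    have z1 : z < 1 := by exact_mod_cast (show (z : ℝ) < 1 by linarith [a.1, b.2])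
    have z2 : -1 < z := by exact_mod_cast (show (-1 : ℝ) < z by linarith [a.2, b.1])
    obtain rfl : z = 0 := by omega
    have := ih (fun j hj => hb j (by omega))
    push_cast at e ⊢
    linarith

lemma nrm (t : ℝ) (ht : t ^ 2 = t + 1) (hi : ∀ a b : ℤ, b ≠ 0 → (b : ℝ) * t ≠ a) (d m : ℤ)
    (hd : d ≠ 0) : 1 ≤ |(d * t - m) * (d * (2 * t - 1) - (d * t - m))| := by
  have e : (d * t - m) * (d * (2 * t - 1) - (d * t - m)) = ((d ^ 2 + m * d - m ^ 2 : ℤ) : ℝ) := by
    push_cast; linear_combination (d : ℝ) ^ 2 * ht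
  have : (d ^ 2 + m * d - m ^ 2 : ℤ) ≠ 0 := by
    intro h
    rw [h, Int.cast_zero, mul_eq_zero] at e
    rcases e with e | e
    · exact hi m d hd (by linarith)
    · exact hi (d - m) d hd (by push_cast; linarith)
  rw [e]
  exact_mod_cast Int.one_le_abs this

lemma noint (m c : ℤ) (a : (c : ℝ) < m) (b : (m : ℝ) < c + 1) : False := by
  have a' : c < m := by exact_mod_cast a
  have b' : m < c + 1 := by exact_mod_cast b
  omega

lemma finA (t : ℝ) (ht : t ^ 2 = t + 1) (h1 : 1.618 < t) (h2 : t < 1.6181)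
    (hi : ∀ a b : ℤ, b ≠ 0 → (b : ℝ) * t ≠ a) (d K : ℕ) (hd : 1 ≤ d) (m : ℤ) (δ : ℝ)
    (hδ : δ = d * t - m) (a1 : δ ≤ 1 / 2) (a2 : -(1 / 2) ≤ δ) (hK : K * |δ| < t - 1) :
    (K : ℝ) < d * (3 - t) := by
  have n := nrm t ht hi d m (by omega)
  push_cast at n
  have hd' : (1 : ℝ) ≤ d := by exact_mod_cast hd
  have hK0 : (0 : ℝ) ≤ K := Nat.cast_nonneg K
  have w : 0 < d * (2 * t - 1) - δ := by nlinarith
  rw [← hδ, abs_mul, abs_of_pos w] at n
  have k1 : (K : ℝ) < (t - 1) * (d * (2 * t - 1) - δ) := by nlinarith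
  have k2 : (t - 1) * (d * (2 * t - 1) - δ) = d * (3 - t) - δ * (t - 1) := by
    linear_combination 2 * (d : ℝ) * ht
  by_contra hc
  refine noint K (3 * d - m) ?_ ?_ <;> push_cast <;> nlinarith

lemma finB (t : ℝ) (ht : t ^ 2 = t + 1) (h1 : 1.618 < t) (h2 : t < 1.6181)
    (hi : ∀ a b : ℤ, b ≠ 0 → (b : ℝ) * t ≠ a) (d J : ℕ) (hd : d = 4 ∨ 6 ≤ d) (m : ℤ) (η : ℝ)
    (hη : η = 2 * d * t - m) (a1 : η ≤ 1 / 4) (a2 : -(1 / 4) ≤ η) (hJ0 : 1 ≤ J)
    (hJ : (2 * J - 1) * |η| < 2 * t - 3) : (2 * J + 1 : ℝ) < d * (3 - t) := by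
  have n := nrm t ht hi (2 * d) m (by omega)
  push_cast at n
  have hd' : (4 : ℝ) ≤ d := by exact_mod_cast (show 4 ≤ d by omega)
  have hJ1 : (1 : ℝ) ≤ J := by exact_mod_cast hJ0
  have w : 0 < 2 * d * (2 * t - 1) - η := by nlinarith
  rw [← hη, abs_mul, abs_of_pos w] at n
  have k1 : (2 * J - 1 : ℝ) < (2 * t - 3) * (2 * d * (2 * t - 1) - η) := by nlinarith
  have k2 : (2 * t - 3) * (2 * d * (2 * t - 1) - η) = d * (14 - 8 * t) - η * (2 * t - 3) := by
    linear_combination 8 * (d : ℝ) * ht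
  have k3 : (2 * J - 1 : ℝ) < d * 1.056 + 0.06 := by nlinarith
  have : d = 4 ∨ d = 6 ∨ 7 ≤ d := by omega
  rcases this with rfl | rfl | h
  · have : J < 3 := by exact_mod_cast (show (J : ℝ) < 3 by push_cast at k3; linarith)
    have : (J : ℝ) ≤ 2 := by exact_mod_cast (show J ≤ 2 by omega)
    push_cast; linarith
  · have : J < 4 := by exact_mod_cast (show (J : ℝ) < 4 by push_cast at k3; linarith)
    have : (J : ℝ) ≤ 3 := by exact_mod_cast (show J ≤ 3 by omega)
    push_cast; linarith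
  · have : (7 : ℝ) ≤ d := by exact_mod_cast h
    nlinarith

lemma core (t : ℝ) (ht : t ^ 2 = t + 1) (h1 : 1.618 < t) (h2 : t < 1.6181)
    (hi : ∀ a b : ℤ, b ≠ 0 → (b : ℝ) * t ≠ a) (d K : ℕ) (hd : 1 ≤ d) (u : ℕ → ℝ)
    (hz : ∀ j, ∃ z : ℤ, u (j + 1) - u j - d * t = z)
    (hb : (∀ j ≤ K, 0 ≤ u j ∧ u j < 2 - t) ∨ (∀ j ≤ K, 2 - t ≤ u j ∧ u j < 1)) :
    (K : ℝ) < d * (3 - t) := by
  obtain ⟨m, δ, hδ, a1, a2⟩ : ∃ (m : ℤ) (δ : ℝ), δ = d * t - m ∧ δ ≤ 1 / 2 ∧ -(1 / 2) ≤ δ :=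
    ⟨round (d * t), _, rfl, (abs_le.1 (abs_sub_round _)).2, (abs_le.1 (abs_sub_round _)).1⟩
  have hz' : ∀ j, ∃ z : ℤ, u (j + 1) - u j - δ = z := fun j => by
    obtain ⟨z, e⟩ := hz j
    exact ⟨z + m, by push_cast; linarith⟩
  have hd' : (1 : ℝ) ≤ d := by exact_mod_cast hd
  have fa : ∀ lo hi' : ℝ, (∀ j ≤ K, lo ≤ u j ∧ u j < hi') → hi' - lo + δ ≤ 1 → hi' - lo - δ ≤ 1 →
      hi' - lo ≤ t - 1 → (K : ℝ) < d * (3 - t) := by
    intro lo hi' hb b1 b2 b3
    have e := nj u lo hi' δ K hb hz' b1 b2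
    have c0 := hb 0 (by omega)
    have c1 := hb K le_rfl
    refine finA t ht h1 h2 hi d K hd m δ hδ a1 a2 ?_
    rw [← Nat.abs_cast K, ← abs_mul, abs_lt]
    constructor <;> linarith [c0.1, c0.2, c1.1, c1.2]
  rcases hb with hb | hb
  · exact fa _ _ hb (by linarith) (by linarith) (by linarith)
  by_cases hs : δ ≤ 2 - t ∧ -(2 - t) ≤ δ
  · exact fa _ _ hb (by linarith [hs.1]) (by linarith [hs.2]) (by linarith)
  obtain ⟨s, hs⟩ : ∃ s : ℤ, (s = 1 ∧ 2 - t < δ) ∨ (s = -1 ∧ δ < -(2 - t)) := by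
    by_cases h : δ ≤ 2 - t
    · exact ⟨-1, Or.inr ⟨rfl, not_le.1 fun h' => hs ⟨h, h'⟩⟩⟩
    · exact ⟨1, Or.inl ⟨rfl, not_le.1 h⟩⟩
  have hd4 : d = 4 ∨ 6 ≤ d := by
    by_contra hc
    have : d = 1 ∨ d = 2 ∨ d = 3 ∨ d = 5 := by omega
    rcases this with rfl | rfl | rfl | rfl <;> rcases hs with ⟨-, h⟩ | ⟨-, h⟩ <;> push_cast at hδ
    · exact noint m 1 (by push_cast; linarith) (by push_cast; linarith)
    · exact noint m 2 (by push_cast; linarith) (by push_cast; linarith)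
    · exact noint m 2 (by push_cast; linarith) (by push_cast; linarith)
    · exact noint m 3 (by push_cast; linarith) (by push_cast; linarith)
    · exact noint m 4 (by push_cast; linarith) (by push_cast; linarith)
    · exact noint m 5 (by push_cast; linarith) (by push_cast; linarith)
    · exact noint m 7 (by push_cast; linarith) (by push_cast; linarith)
    · exact noint m 8 (by push_cast; linarith) (by push_cast; linarith)
  have hd' : (4 : ℝ) ≤ d := by exact_mod_cast (show 4 ≤ d by omega)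
  by_cases hK : K ≤ 1
  · have : (K : ℝ) ≤ 1 := by exact_mod_cast hK
    nlinarith
  obtain ⟨J, hJ⟩ : ∃ J, K = 2 * (J + 1) ∨ K = 2 * (J + 1) + 1 := ⟨K / 2 - 1, by omega⟩
  have two : ∀ n, ∃ z : ℤ, u (n + 1 + 1) - u n - (2 * δ - s) = z := fun n => by
    obtain ⟨z, e⟩ := hz' n
    obtain ⟨z', e'⟩ := hz' (n + 1)
    exact ⟨z + z' + s, by push_cast; linarith⟩
  have b1 : 2 * δ - s ≤ 1 / 4 ∧ -(1 / 4) ≤ 2 * δ - s := by
    rcases hs with ⟨rfl, h⟩ | ⟨rfl, h⟩ <;> push_cast <;> constructor <;> linarith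
  have e1 := nj (fun j => u (2 * j)) (2 - t) 1 (2 * δ - s) (J + 1) (fun j hj => hb _ (by omega))
    (fun j => two (2 * j)) (by linarith [b1.1]) (by linarith [b1.2])
  have e2 := nj (fun j => u (2 * j + 1)) (2 - t) 1 (2 * δ - s) J (fun j hj => hb _ (by omega))
    (fun j => two (2 * j + 1)) (by linarith [b1.1]) (by linarith [b1.2])
  simp only [Nat.mul_zero, Nat.zero_add] at e1 e2
  obtain ⟨z, e⟩ := hz' 0
  rw [Nat.zero_add] at e
  have c0 := hb 0 (by omega)
  have c1 := hb 1 (by omega)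
  have c2 := hb (2 * (J + 1)) (by omega)
  have c3 := hb (2 * J + 1) (by omega)
  have hzz : z = 0 ∨ z = -s := by
    rcases hs with ⟨rfl, h⟩ | ⟨rfl, h⟩
    · have z1 : z < 1 := by exact_mod_cast (show (z : ℝ) < 1 by linarith [c0.1, c1.2])
      have z2 : -2 < z := by exact_mod_cast (show (-2 : ℝ) < z by linarith [c0.2, c1.1])
      omega
    · have z1 : z < 2 := by exact_mod_cast (show (z : ℝ) < 2 by linarith [c0.1, c1.2])
      have z2 : -1 < z := by exact_mod_cast (show (-1 : ℝ) < z by linarith [c0.2, c1.1])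
      omega
  have fb := finB t ht h1 h2 hi d (J + 1) hd4 (2 * m + s) (2 * δ - s) (by push_cast; linarith)
    b1.1 b1.2 (by omega) (by
      rcases hs with ⟨rfl, h⟩ | ⟨rfl, h⟩
      · rw [abs_of_nonpos (by push_cast; linarith)]
        rcases hzz with rfl | rfl <;> push_cast at * <;>
          linarith [c0.1, c0.2, c1.1, c1.2, c2.1, c2.2, c3.1, c3.2]
      · rw [abs_of_nonneg (by push_cast; linarith)]
        rcases hzz with rfl | rfl <;> push_cast at * <;>
          linarith [c0.1, c0.2, c1.1, c1.2, c2.1, c2.2, c3.1, c3.2])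
  have : (K : ℝ) ≤ 2 * ((J + 1 : ℕ) : ℝ) + 1 := by exact_mod_cast (show K ≤ 2 * (J + 1) + 1 by omega)
  linarith

/-- Every monochromatic progression of length `k` and difference `d ≥ 1` in the Fibonacci word
has `(k - 1) / d < √5 / τ`. -/
theorem result (f : ℕ → Bool) (hf : IsFix f) (d : ℕ) (hd : 1 ≤ d) (i k : ℕ)
    (h : ∀ j < k, f (i + j * d) = f i) :
    ((k : ℝ) - 1) / d < √5 / ((1 + √5) / 2) := by
  have h5 : √5 ^ 2 = 5 := Real.sq_sqrt (by norm_num)
  have l1 : (2.236 : ℝ) < √5 := Real.lt_sqrt_of_sq_lt (by norm_num)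
  have l2 : √5 < (2.2362 : ℝ) := (Real.sqrt_lt' (by norm_num)).2 (by norm_num)
  have irr : Irrational √5 := by simpa using (Nat.Prime.irrational_sqrt (p := 5) (by norm_num))
  obtain ⟨t, e⟩ : ∃ t : ℝ, t = (1 + √5) / 2 := ⟨_, rfl⟩
  have ht : t ^ 2 = t + 1 := by rw [e]; linear_combination h5 / 4
  have h1 : 1.618 < t := by linarith
  have h2 : t < 1.6181 := by linarith
  have hi : ∀ a b : ℤ, b ≠ 0 → (b : ℝ) * t ≠ a := by
    intro a b hb q
    have hb' : (b : ℝ) ≠ 0 := by exact_mod_cast hb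
    refine irr.ne_rational (2 * a - b) b ?_
    rw [eq_div_iff hb']; push_cast; rw [e] at q; linarith
  have hd' : (1 : ℝ) ≤ d := by exact_mod_cast hd
  have e5 : √5 / ((1 + √5) / 2) = 3 - t := by
    rw [← e, div_eq_iff (by linarith)]; linarith
  rw [e5, div_lt_iff₀ (by linarith)]
  rcases k with _ | K
  · push_cast; nlinarith
  have := core t ht h1 h2 hi d K hd (fun j => Int.fract ((((i + j * d : ℕ) : ℝ) + 1) * t))
    (fun j => ⟨⌊(((i + j * d : ℕ) : ℝ) + 1) * t⌋ - ⌊(((i + (j + 1) * d : ℕ) : ℝ) + 1) * t⌋, by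
      simp only [Int.fract]; push_cast; ring⟩) (by
      by_cases hc : f i = false
      · exact Or.inr fun j hj => ⟨(mech t ht h1 h2 hi f hf _).1.1 ((h j (by omega)).trans hc),
          Int.fract_lt_one _⟩
      · exact Or.inl fun j hj => ⟨Int.fract_nonneg _, not_le.1 fun q =>
          hc ((h j (by omega)).symm.trans ((mech t ht h1 h2 hi f hf _).1.2 q))⟩)
  push_cast
  linarith

end Pool.Agent.Results.MP_ca4252_co.All
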